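import Mathlib

open Finset

namespace Pool.Agent.Results.MP_f496b1_nt.Seventeen

/-- The binomial coefficient of a rational `a`. -/
def bin (a : ℚ) (k : ℕ) : ℚ := (∏ i ∈ range k, (a - i)) / k.factorial

/-- The sum `S_1(p)`. -/
def S (p : ℕ) : ℚ := ∑ k ∈ range p, bin (-1 / 3) k * bin (-1 / 6) k / (-16) ^ k

/-- `x - y` lies in `p ^ 2 ℤ_(p)`. -/
def Cong (p : ℕ) (x y : ℚ) : Prop := ¬ p ∣ ((x - y) / p ^ 2).den

theorem result : ¬ ∀ p : ℕ, p.Prime → 3 < p → ∀ x y : ℤ, 4 * (p : ℤ) = 17 * x ^ 2 + 3 * y ^ 2 →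
    Cong p (S p) (1 / 4 * jacobiSym x 3 * (17 * x - p / x)) := fun h => by
  have := h 17 (by norm_num) (by norm_num) 2 0 (by norm_num)
  have e : jacobiSym 2 3 = -1 := by norm_num
  rw [e] at this
  exact this (by decide +kernel)

end Pool.Agent.Results.MP_f496b1_nt.Seventeen
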